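import Pool.Agent.TH598.KG.Base

/-! Job 117: linear algebra of the mixed discriminant of `3 × 3` matrices. -/

set_option autoImplicit false

open scoped Manifold ContDiff Topology ComplexConjugate MatrixGroups UpperHalfPlane Matrix
open scoped MatrixOrder ComplexOrder

set_option linter.unusedSimpArgs false
open MeasureTheory Set Filter

namespace Pool.Agent.TH343.J117

open Pool.Agent.TH598.KG
open Pool.Agent.W549.CY (Cn dz dzbar HermitianMetric chernRicci chernScalar)
open Pool.Agent.W711.KC (jj nn)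

theorem hf_eq {n : ℕ} (A : Matrix (Fin n) (Fin n) ℂ) (v : Cn n) :
    hf A v = v ⬝ᵥ A.mulVec (fun k => conj (v k)) := by
  unfold hf
  simp only [dotProduct, Matrix.mulVec, Finset.mul_sum]
  refine Finset.sum_congr rfl fun j _ => Finset.sum_congr rfl fun k _ => by ring

/-- the form pulled back by a linear map with matrix `P` (`w = P v`). -/
theorem hf_pull {n : ℕ} (P A : Matrix (Fin n) (Fin n) ℂ) (v : Cn n) :
    hf (Pᵀ * A * P.map conj) v = hf A (P.mulVec v) := by
  rw [hf_eq, hf_eq]
  have h1 : (fun k => conj ((P.mulVec v) k)) = (P.map conj).mulVec (fun k => conj (v k)) := by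
    funext k
    simp only [Matrix.mulVec, dotProduct, map_sum, map_mul, Matrix.map_apply]
  rw [h1, ← Matrix.mulVec_mulVec, ← Matrix.mulVec_mulVec, Matrix.dotProduct_mulVec,
    Matrix.vecMul_transpose]

theorem hf_sub {n : ℕ} (A B : Matrix (Fin n) (Fin n) ℂ) (v : Cn n) :
    hf (A - B) v = hf A v - hf B v := by
  unfold hf
  simp only [Matrix.sub_apply, sub_mul, Finset.sum_sub_distrib]

/-- value on `x e_j + y e_k` -/
theorem hf_two {n : ℕ} (A : Matrix (Fin n) (Fin n) ℂ) (j k : Fin n) (x y : ℂ) :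
    hf A (fun i => (if i = j then x else 0) + (if i = k then y else 0)) =
      A j j * x * conj x + A j k * x * conj y + A k j * y * conj x + A k k * y * conj y := by
  unfold hf
  simp only [map_add, apply_ite (starRingEnd ℂ), map_zero, mul_add, add_mul,
    Finset.sum_add_distrib, mul_ite, mul_zero, ite_mul, zero_mul,
    Finset.sum_ite_eq', Finset.mem_univ, if_true, Finset.sum_ite_eq,
    Finset.sum_const_zero]
  ring

theorem hf_ext {n : ℕ} {A B : Matrix (Fin n) (Fin n) ℂ} (h : ∀ v, hf A v = hf B v) : A = B := by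
  have h0 : ∀ v, hf (A - B) v = 0 := fun v => by rw [hf_sub, h v, sub_self]
  have hd : ∀ j k, (A - B) j k = 0 := by
    intro j k
    have e1 := h0 (fun i => (if i = j then (1 : ℂ) else 0) + (if i = k then (1 : ℂ) else 0))
    have e2 := h0 (fun i => (if i = j then (1 : ℂ) else 0) + (if i = k then (-1 : ℂ) else 0))
    have e3 := h0 (fun i => (if i = j then (1 : ℂ) else 0) + (if i = k then Complex.I else 0))
    have e4 := h0 (fun i => (if i = j then (1 : ℂ) else 0) + (if i = k then (-Complex.I) else 0))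
    rw [hf_two] at e1 e2 e3 e4
    simp only [map_one, map_neg, Complex.conj_I, mul_one, mul_neg, neg_mul, neg_neg] at e1 e2 e3 e4
    have hI : Complex.I * Complex.I = -1 := Complex.I_mul_I
    have s1 : (A - B) j k + (A - B) k j = 0 := by linear_combination (1 / 2) * (e1 - e2)
    have s2 : (A - B) j k - (A - B) k j = 0 := by
      linear_combination (1 / 2) * Complex.I * (e3 - e4) + ((A - B) j k - (A - B) k j) * hI
    linear_combination (1 / 2) * (s1 + s2)
  ext j k
  have := hd j k
  rw [Matrix.sub_apply, sub_eq_zero] at this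
  exact this

/-! ### the mixed discriminant -/

theorem padj_apply (a b : M3) (i j : Fin 3) :
    padj a b j i = a (i + 1) (j + 1) * b (i + 2) (j + 2) + b (i + 1) (j + 1) * a (i + 2) (j + 2)
      - a (i + 1) (j + 2) * b (i + 2) (j + 1) - b (i + 1) (j + 2) * a (i + 2) (j + 1) := by
  unfold padj
  fin_cases i <;> fin_cases j <;>
    simp [Matrix.adjugate_fin_three, Matrix.sub_apply, Matrix.add_apply] <;> ring

theorem DD_apply (x a b : M3) : DD x a b = ∑ i, ∑ j, x i j * padj a b j i := by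
  unfold DD
  simp only [Matrix.trace, Matrix.diag_apply, Matrix.mul_apply]

theorem padj_mul (P Q a b : M3) :
    padj (P * a * Q) (P * b * Q) = Q.adjugate * padj a b * P.adjugate := by
  unfold padj
  have h : P * a * Q + P * b * Q = P * (a + b) * Q := by
    rw [Matrix.mul_add, Matrix.add_mul]
  rw [h]
  simp only [Matrix.adjugate_mul_distrib, mul_sub, sub_mul, Matrix.mul_assoc]

theorem DD_pull (P x a b : M3) :
    DD (Pᵀ * x * P.map conj) (Pᵀ * a * P.map conj) (Pᵀ * b * P.map conj) =
      (Complex.normSq P.det : ℂ) * DD x a b := by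
  unfold DD
  rw [padj_mul]
  have h1 : (P.map conj).det = conj P.det := by
    have := RingHom.map_det (starRingEnd ℂ) P
    rw [this]; rfl
  have h2 : Pᵀ * x * P.map conj * ((P.map conj).adjugate * padj a b * Pᵀ.adjugate)
      = (P.map conj).det • (Pᵀ * (x * padj a b) * Pᵀ.adjugate) := by
    calc Pᵀ * x * P.map conj * ((P.map conj).adjugate * padj a b * Pᵀ.adjugate)
        = Pᵀ * x * (P.map conj * (P.map conj).adjugate) * padj a b * Pᵀ.adjugate := by
          simp only [Matrix.mul_assoc]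
      _ = _ := by
          rw [Matrix.mul_adjugate]
          simp only [Matrix.mul_smul, Matrix.smul_mul, Matrix.mul_one, Matrix.mul_assoc]
  rw [h2, Matrix.trace_smul, Matrix.trace_mul_comm, ← Matrix.mul_assoc, Matrix.adjugate_mul,
    Matrix.smul_mul, Matrix.one_mul, Matrix.trace_smul, h1, Matrix.det_transpose,
    smul_eq_mul, smul_eq_mul, ← mul_assoc]
  congr 1
  rw [mul_comm, Complex.mul_conj]

theorem DD_add_left (x x' a b : M3) : DD (x + x') a b = DD x a b + DD x' a b := by
  unfold DD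
  rw [Matrix.add_mul, Matrix.trace_add]

theorem DD_smul_left (c : ℂ) (x a b : M3) : DD (c • x) a b = c * DD x a b := by
  unfold DD
  rw [Matrix.smul_mul, Matrix.trace_smul, smul_eq_mul]

theorem padj_symm (a b : M3) : padj a b = padj b a := by
  unfold padj
  rw [add_comm a b]
  abel

theorem DD_conj (x a b : M3) : DD xᴴ aᴴ bᴴ = conj (DD x a b) := by
  rw [DD_apply, DD_apply]
  simp only [map_sum, map_mul]
  rw [Finset.sum_comm]
  refine Finset.sum_congr rfl fun i _ => Finset.sum_congr rfl fun j _ => ?_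
  rw [padj_apply, padj_apply]
  simp only [Matrix.conjTranspose_apply, map_add, map_sub, map_mul, RCLike.star_def]
  ring

theorem DD_symm (x a b : M3) : DD x a b = DD x b a ∧ DD x a b = DD a x b := by
  constructor
  · unfold DD
    rw [padj_symm]
  · rw [DD_apply, DD_apply]
    simp only [padj_apply, Fin.sum_univ_three]
    simp
    ring

theorem DD_self (a : M3) : DD a a a = 6 * a.det := by
  have h : padj a a = (2 : ℂ) • a.adjugate := by
    unfold padj
    have h2 : a + a = (2 : ℂ) • a := by rw [two_smul]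
    rw [h2, Matrix.adjugate_smul]
    simp only [Fintype.card_fin]
    ext i j
    simp only [Matrix.sub_apply, Matrix.smul_apply, smul_eq_mul]
    ring
  unfold DD
  rw [h, Matrix.mul_smul, Matrix.mul_adjugate, Matrix.trace_smul, Matrix.trace_smul,
    Matrix.trace_one]
  simp only [Fintype.card_fin, smul_eq_mul]
  push_cast
  ring

/-! ### bounds -/

theorem padj_norm {a b : M3} {A B : ℝ} (ha : ∀ i j, ‖a i j‖ ≤ A) (hb : ∀ i j, ‖b i j‖ ≤ B)
    (i j : Fin 3) : ‖padj a b j i‖ ≤ 4 * (A * B) := by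
  have hA : 0 ≤ A := (norm_nonneg _).trans (ha 0 0)
  have hB : 0 ≤ B := (norm_nonneg _).trans (hb 0 0)
  rw [padj_apply]
  have hab : ∀ i j k l, ‖a i j * b k l‖ ≤ A * B := fun i j k l => by
    rw [norm_mul]
    exact mul_le_mul (ha _ _) (hb _ _) (norm_nonneg _) hA
  have hba : ∀ i j k l, ‖b i j * a k l‖ ≤ A * B := fun i j k l => by
    rw [mul_comm]; exact hab _ _ _ _
  refine (norm_sub_le _ _).trans ?_
  have h1 := hba (i + 1) (j + 2) (i + 2) (j + 1)
  have h2 : ‖a (i + 1) (j + 1) * b (i + 2) (j + 2) + b (i + 1) (j + 1) * a (i + 2) (j + 2)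
      - a (i + 1) (j + 2) * b (i + 2) (j + 1)‖ ≤ 3 * (A * B) := by
    refine (norm_sub_le _ _).trans ?_
    have h3 := hab (i + 1) (j + 2) (i + 2) (j + 1)
    have h4 := norm_add_le (a (i + 1) (j + 1) * b (i + 2) (j + 2))
      (b (i + 1) (j + 1) * a (i + 2) (j + 2))
    have h5 := hab (i + 1) (j + 1) (i + 2) (j + 2)
    have h6 := hba (i + 1) (j + 1) (i + 2) (j + 2)
    linarith
  linarith

theorem DD_norm {x a b : M3} {X A B : ℝ} (hx : ∀ i j, ‖x i j‖ ≤ X) (ha : ∀ i j, ‖a i j‖ ≤ A)
    (hb : ∀ i j, ‖b i j‖ ≤ B) : ‖DD x a b‖ ≤ 36 * X * A * B := by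
  have hX : 0 ≤ X := (norm_nonneg _).trans (hx 0 0)
  rw [DD_apply]
  have h : ∀ i j, ‖x i j * padj a b j i‖ ≤ X * (4 * (A * B)) := fun i j => by
    rw [norm_mul]
    exact mul_le_mul (hx _ _) (padj_norm ha hb i j) (norm_nonneg _) hX
  calc ‖∑ i, ∑ j, x i j * padj a b j i‖ ≤ ∑ i : Fin 3, ∑ j : Fin 3, X * (4 * (A * B)) := by
        refine (norm_sum_le _ _).trans (Finset.sum_le_sum fun i _ => ?_)
        exact (norm_sum_le _ _).trans (Finset.sum_le_sum fun j _ => h i j)
    _ = 36 * X * A * B := by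
        simp only [Finset.sum_const, Finset.card_univ, Fintype.card_fin, nsmul_eq_mul]
        push_cast
        ring

/-- `|v|²` -/
noncomputable def sq (v : Cn 3) : ℝ := ∑ j, ‖v j‖ ^ 2

theorem hf_one (v : Cn 3) : (hf (1 : M3) v).re = sq v := by
  unfold hf sq
  rw [Complex.re_sum]
  refine Finset.sum_congr rfl fun j _ => ?_
  rw [Finset.sum_eq_single j]
  · rw [Matrix.one_apply_eq, one_mul, Complex.mul_conj, Complex.ofReal_re, Complex.normSq_eq_norm_sq]
  · intro k _ hk
    rw [Matrix.one_apply_ne (Ne.symm hk)]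
    ring
  · intro h; exact absurd (Finset.mem_univ _) h

/-- entries of a Hermitian matrix whose form is bounded by `c |v|²` -/
theorem entry_bound {x : M3} {c : ℝ} (hx : x.IsHermitian)
    (h : ∀ v, |(hf x v).re| ≤ c * sq v) (i j : Fin 3) : ‖x i j‖ ≤ 4 * c := by
  have hc : 0 ≤ c := by
    have h1 := h (fun k => if k = 0 then 1 else 0)
    have h2 : sq (fun k => if k = 0 then 1 else 0) = 1 := by
      unfold sq; simp [Fin.sum_univ_three]
    rw [h2, mul_one] at h1
    exact (abs_nonneg _).trans h1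
  have hji : x j i = conj (x i j) := by
    have := hx.apply i j
    rw [← this]; simp
  have hsq : ∀ y : ℂ, ‖y‖ = 1 →
      sq (fun k => (if k = i then (1 : ℂ) else 0) + (if k = j then y else 0)) ≤ 4 := by
    intro y hy
    unfold sq
    have key : ∀ k, ‖(if k = i then (1 : ℂ) else 0) + (if k = j then y else 0)‖ ^ 2 ≤
        2 * (if k = i then (1 : ℝ) else 0) + 2 * (if k = j then (1 : ℝ) else 0) := by
      intro k
      have e : ‖(if k = i then (1 : ℂ) else 0) + (if k = j then y else 0)‖ ≤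
          (if k = i then (1 : ℝ) else 0) + (if k = j then (1 : ℝ) else 0) := by
        refine (norm_add_le _ _).trans (add_le_add ?_ ?_)
        · split_ifs <;> simp
        · split_ifs
          · exact hy.le
          · simp
      have e0 := norm_nonneg ((if k = i then (1 : ℂ) else 0) + (if k = j then y else 0))
      have e1 := pow_le_pow_left₀ e0 e 2
      refine e1.trans ?_
      split_ifs <;> norm_num
    refine (Finset.sum_le_sum fun k _ => key k).trans ?_
    rw [Finset.sum_add_distrib, ← Finset.mul_sum, ← Finset.mul_sum, Finset.sum_ite_eq',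
      Finset.sum_ite_eq']
    simp
    norm_num
  have hb : ∀ y : ℂ, ‖y‖ = 1 →
      |(hf x (fun k => (if k = i then (1 : ℂ) else 0) + (if k = j then y else 0))).re| ≤ 4 * c := by
    intro y hy
    refine (h _).trans ?_
    have := hsq y hy
    nlinarith
  have r1 := hb 1 (by simp)
  have r2 := hb (-1) (by simp)
  have r3 := hb Complex.I (by simp)
  have r4 := hb (-Complex.I) (by simp)
  rw [hf_two] at r1 r2 r3 r4
  rw [hji] at r1 r2 r3 r4
  simp only [map_one, map_neg, Complex.conj_I, mul_one, mul_neg, neg_mul, neg_neg,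
    Complex.add_re, Complex.mul_re, Complex.neg_re, Complex.I_re, Complex.I_im, Complex.conj_re,
    Complex.conj_im, mul_zero, zero_sub, sub_zero, neg_zero, Complex.mul_im, zero_add,
    add_zero] at r1 r2 r3 r4
  rw [abs_le] at r1 r2 r3 r4
  have a1 : |(x i j).re| ≤ 2 * c := by
    rw [abs_le]; constructor <;> linarith [r1.1, r1.2, r2.1, r2.2]
  have a2 : |(x i j).im| ≤ 2 * c := by
    rw [abs_le]; constructor <;> linarith [r3.1, r3.2, r4.1, r4.2]
  have := Complex.norm_le_abs_re_add_abs_im (x i j)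
  linarith

/-- a positive definite form is `|P v|²` -/
theorem exists_root {g : M3} (hg : g.IsHermitian) (hp : ∀ v : Cn 3, v ≠ 0 → 0 < (hf g v).re) :
    ∃ P Q : M3, P * Q = 1 ∧ Q * P = 1 ∧ g = Pᵀ * P.map conj := by
  have hpd : g.PosDef := by
    rw [Matrix.posDef_iff_dotProduct_mulVec]
    refine ⟨hg, fun w hw => ?_⟩
    have e : star w ⬝ᵥ g.mulVec w = hf g (fun k => conj (w k)) := by
      rw [hf_eq]
      congr 1
      congr 1
      funext k
      simp
    have h1 := hp (fun k => conj (w k)) (by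
      intro h
      apply hw
      funext k
      have := congrFun h k
      simpa using this)
    have him : (hf g (fun k => conj (w k))).im = 0 := by
      rw [← e]
      have := hg.im_star_dotProduct_mulVec_self w
      simpa using this
    rw [e]
    rw [Complex.lt_def]
    exact ⟨by simpa using h1, by simpa using him.symm⟩
  obtain ⟨B, hB⟩ : ∃ B : M3, g = star B * B :=
    CStarAlgebra.nonneg_iff_eq_star_mul_self.mp hpd.posSemidef.nonneg
  have hdet : g.det ≠ 0 := hpd.det_pos.ne'
  have hBd : B.det ≠ 0 := by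
    intro h0
    apply hdet
    rw [hB, Matrix.det_mul, h0, mul_zero]
  have hPd : (B.map conj).det ≠ 0 := by
    have := RingHom.map_det (starRingEnd ℂ) B
    have h2 : (B.map conj).det = conj B.det := by rw [this]; rfl
    rw [h2]
    simpa using hBd
  have hu : IsUnit (B.map conj).det := isUnit_iff_ne_zero.2 hPd
  refine ⟨B.map conj, (B.map conj)⁻¹, Matrix.mul_nonsing_inv _ hu, Matrix.nonsing_inv_mul _ hu, ?_⟩
  rw [hB]
  ext i j
  simp [Matrix.mul_apply, Matrix.star_eq_conjTranspose]

/-- main reduction: normalise the positive form. -/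
theorem reduce {g : M3} (hg : g.IsHermitian) (hp : ∀ v : Cn 3, v ≠ 0 → 0 < (hf g v).re) :
    ∃ P Q : M3, P * Q = 1 ∧ Q * P = 1 ∧ Complex.normSq P.det = g.det.re ∧
      (∀ v, (hf g (Q.mulVec v)).re = sq v) ∧
      (∀ x : M3, x = Pᵀ * (Qᵀ * x * Q.map conj) * P.map conj) := by
  obtain ⟨P, Q, h1, h2, h3⟩ := exists_root hg hp
  refine ⟨P, Q, h1, h2, ?_, ?_, ?_⟩
  · rw [h3, Matrix.det_mul, Matrix.det_transpose]
    have := RingHom.map_det (starRingEnd ℂ) P
    have h4 : (P.map conj).det = conj P.det := by rw [this]; rfl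
    rw [h4, Complex.mul_conj, Complex.ofReal_re]
  · intro v
    have h5 : hf g (Q.mulVec v) = hf (1 : M3) (P.mulVec (Q.mulVec v)) := by
      rw [← hf_pull P, Matrix.mul_one, ← h3]
    rw [h5, Matrix.mulVec_mulVec, h1, Matrix.one_mulVec, hf_one]
  · intro x
    have h6 : Pᵀ * Qᵀ = 1 := by rw [← Matrix.transpose_mul, h2, Matrix.transpose_one]
    have h7 : Q.map conj * P.map conj = 1 := by
      rw [← Matrix.map_mul, h2]
      ext i j
      by_cases h : i = j
      · subst h; simp
      · simp [Matrix.one_apply_ne h]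
    calc x = (Pᵀ * Qᵀ) * x * (Q.map conj * P.map conj) := by rw [h6, h7]; simp
      _ = _ := by simp only [Matrix.mul_assoc]

theorem herm_pull {x Q : M3} (hx : x.IsHermitian) : (Qᵀ * x * Q.map conj).IsHermitian := by
  have h1 : (Q.map conj) = (Qᵀ)ᴴ := by
    ext i j
    simp
  rw [h1]
  exact Matrix.isHermitian_mul_mul_conjTranspose _ hx

theorem entry_pull {g Q x : M3} {c : ℝ}
    (hgQ : ∀ v, (hf g (Q.mulVec v)).re = sq v) (hx : x.IsHermitian)
    (h : ∀ v, |(hf x v).re| ≤ c * (hf g v).re) (i j : Fin 3) :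
    ‖(Qᵀ * x * Q.map conj) i j‖ ≤ 4 * c := by
  refine entry_bound (herm_pull hx) (fun v => ?_) i j
  rw [hf_pull, ← hgQ]
  exact h _

/-- boundedness of the mixed discriminant of forms dominated by a positive one. -/
theorem DD_bound : ∃ K : ℝ, 0 ≤ K ∧ ∀ (g x a b : M3) (cx ca cb : ℝ), g.IsHermitian →
    (∀ v : Cn 3, v ≠ 0 → 0 < (hf g v).re) → x.IsHermitian → a.IsHermitian → b.IsHermitian →
    0 ≤ cx → 0 ≤ ca → 0 ≤ cb →
    (∀ v, |(hf x v).re| ≤ cx * (hf g v).re) → (∀ v, |(hf a v).re| ≤ ca * (hf g v).re) →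
    (∀ v, |(hf b v).re| ≤ cb * (hf g v).re) → ‖DD x a b‖ ≤ K * cx * ca * cb * g.det.re := by
  refine ⟨36 * 64, by norm_num, ?_⟩
  intro g x a b cx ca cb hg hp hx ha hb _ _ _ hxb hab hbb
  obtain ⟨P, Q, h1, h2, h3, h4, h5⟩ := reduce hg hp
  have hn := DD_norm (entry_pull h4 hx hxb) (entry_pull h4 ha hab)
    (entry_pull h4 hb hbb)
  rw [h5 x, h5 a, h5 b, DD_pull, norm_mul, Complex.norm_real, Real.norm_of_nonneg
    (Complex.normSq_nonneg _), h3]
  have h6 : 0 ≤ g.det.re := by rw [← h3]; exact Complex.normSq_nonneg _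
  calc g.det.re * ‖DD (Qᵀ * x * Q.map conj) (Qᵀ * a * Q.map conj) (Qᵀ * b * Q.map conj)‖
      ≤ g.det.re * (36 * (4 * cx) * (4 * ca) * (4 * cb)) := mul_le_mul_of_nonneg_left hn h6
    _ = _ := by ring

/-- the same with a rank one first entry. -/
theorem DD_bound_rankOne : ∃ K : ℝ, 0 ≤ K ∧ ∀ (g a b : M3) (c η : Cn 3) (cc cη ca cb : ℝ),
    g.IsHermitian → (∀ v : Cn 3, v ≠ 0 → 0 < (hf g v).re) → a.IsHermitian → b.IsHermitian →
    0 ≤ cc → 0 ≤ cη → 0 ≤ ca → 0 ≤ cb →
    (∀ v : Cn 3, ‖∑ j, c j * v j‖ ^ 2 ≤ cc ^ 2 * (hf g v).re) →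
    (∀ v : Cn 3, ‖∑ k, η k * conj (v k)‖ ^ 2 ≤ cη ^ 2 * (hf g v).re) →
    (∀ v, |(hf a v).re| ≤ ca * (hf g v).re) → (∀ v, |(hf b v).re| ≤ cb * (hf g v).re) →
    ‖DD (Matrix.of fun j k => c j * η k) a b‖ ≤ K * cc * cη * ca * cb * g.det.re := by
  refine ⟨36 * 16, by norm_num, ?_⟩
  intro g a b c η cc cη ca cb hg hp ha hb hcc hcη _ _ hcb hηb hab hbb
  obtain ⟨P, Q, h1, h2, h3, h4, h5⟩ := reduce hg hp
  have hsq1 : ∀ j : Fin 3, sq (Pi.single j 1) = 1 := by
    intro j
    unfold sq
    rw [Finset.sum_eq_single j]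
    · simp
    · intro k _ hk
      simp [Pi.single_apply, hk]
    · intro h; exact absurd (Finset.mem_univ _) h
  -- the pulled back entries
  have hcj : ∀ j, ‖Qᵀ.mulVec c j‖ ≤ cc := by
    intro j
    have e := hcb (Q.mulVec (Pi.single j 1))
    rw [h4, hsq1, mul_one] at e
    have e2 : ∑ i, c i * (Q.mulVec (Pi.single j 1)) i = Qᵀ.mulVec c j := by
      simp only [Matrix.mulVec, dotProduct, Matrix.transpose_apply]
      refine Finset.sum_congr rfl fun i _ => ?_
      rw [mul_comm]
      congr 1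
      simp [Pi.single_apply]
    rw [e2] at e
    exact (pow_le_pow_iff_left₀ (norm_nonneg _) hcc (by norm_num)).1 e
  have hηj : ∀ j, ‖(Q.map conj)ᵀ.mulVec η j‖ ≤ cη := by
    intro j
    have e := hηb (Q.mulVec (Pi.single j 1))
    rw [h4, hsq1, mul_one] at e
    have e2 : ∑ i, η i * conj ((Q.mulVec (Pi.single j 1)) i) = (Q.map conj)ᵀ.mulVec η j := by
      simp only [Matrix.mulVec, dotProduct, Matrix.transpose_apply, Matrix.map_apply]
      refine Finset.sum_congr rfl fun i _ => ?_
      rw [mul_comm]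
      congr 1
      simp [Pi.single_apply]
    rw [e2] at e
    exact (pow_le_pow_iff_left₀ (norm_nonneg _) hcη (by norm_num)).1 e
  have hpull : ∀ j k, (Qᵀ * (Matrix.of fun j k => c j * η k) * Q.map conj) j k =
      Qᵀ.mulVec c j * (Q.map conj)ᵀ.mulVec η k := by
    intro j k
    simp only [Matrix.mul_apply, Matrix.mulVec, dotProduct, Matrix.of_apply,
      Matrix.transpose_apply, Finset.sum_mul, Finset.mul_sum]
    refine Finset.sum_congr rfl fun i _ => Finset.sum_congr rfl fun l _ => by ring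
  have hX : ∀ j k, ‖(Qᵀ * (Matrix.of fun j k => c j * η k) * Q.map conj) j k‖ ≤ cc * cη := by
    intro j k
    rw [hpull, norm_mul]
    exact mul_le_mul (hcj j) (hηj k) (norm_nonneg _) hcc
  have hn := DD_norm hX (entry_pull h4 ha hab) (entry_pull h4 hb hbb)
  rw [h5 (Matrix.of fun j k => c j * η k), h5 a, h5 b, DD_pull, norm_mul, Complex.norm_real,
    Real.norm_of_nonneg (Complex.normSq_nonneg _), h3]
  have h6 : 0 ≤ g.det.re := by rw [← h3]; exact Complex.normSq_nonneg _
  calc g.det.re * ‖DD (Qᵀ * (Matrix.of fun j k => c j * η k) * Q.map conj)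
        (Qᵀ * a * Q.map conj) (Qᵀ * b * Q.map conj)‖
      ≤ g.det.re * (36 * (cc * cη) * (4 * ca) * (4 * cb)) := mul_le_mul_of_nonneg_left hn h6
    _ = _ := by ring

end Pool.Agent.TH343.J117
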